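import Pool.Agent.helper24.CG.Spec

/-!
# Row cg:FIN (MP_ba8873_co): the final inequality
-/

set_option autoImplicit false

namespace Pool.Agent.helper24.CG

open Finset

theorem FIN_conc (b m j : ℕ) (hm : 1 ≤ m) (hj : j ≤ m) :
    Real.log (1 + b) / m * j ≤ Real.log (1 + (b : ℝ) * (j : ℝ) / (m : ℝ)) := by
  have hm' : (0 : ℝ) < m := by exact_mod_cast hm
  have hp1 : (0 : ℝ) ≤ (j : ℝ) / m := by positivity
  have hp2 : (j : ℝ) / m ≤ 1 := by
    rw [div_le_one hm']; exact_mod_cast hj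
  have hb : (0 : ℝ) ≤ b := Nat.cast_nonneg b
  have h := rpow_one_add_le_one_add_mul_self (s := (b : ℝ)) (by linarith) hp1 hp2
  have h1 : Real.log ((1 + (b : ℝ)) ^ ((j : ℝ) / m)) ≤ Real.log (1 + (j : ℝ) / m * b) :=
    Real.log_le_log (by positivity) h
  rw [Real.log_rpow (by positivity)] at h1
  have e1 : Real.log (1 + b) / m * j = (j : ℝ) / m * Real.log (1 + b) := by ring
  have e2 : 1 + (b : ℝ) * (j : ℝ) / (m : ℝ) = 1 + (j : ℝ) / m * b := by ring
  rw [e1, e2]
  exact h1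

theorem FIN_quad (x d : ℝ) (hx : 0 ≤ x) (hd : x ≤ d) : x * (1 - d / 2) ≤ Real.log (1 + x) := by
  have h := Real.le_log_one_add_of_nonneg hx
  have h1 : x * (1 - d / 2) ≤ x * (1 - x / 2) := by
    apply mul_le_mul_of_nonneg_left _ hx
    linarith
  have h2 : x * (1 - x / 2) ≤ 2 * x / (x + 2) := by
    rw [le_div_iff₀ (by linarith)]
    have h3 : x * (1 - x / 2) * (x + 2) = 2 * x - x ^ 3 / 2 := by ring
    have h4 : 0 ≤ x ^ 3 := by positivity
    linarith
  linarith

theorem FIN_gain_cons {α : Type} [DecidableEq α] (b m : ℕ) (S E : Finset α)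
    (L : List (Finset α)) :
    gain b m S (E :: L) = (1 + (b : ℝ) * ((E ∩ S).card : ℝ) / (m : ℝ)) * gain b m S L := by
  simp [gain]

theorem FIN_log {α : Type} [DecidableEq α] (b m : ℕ) (S : Finset α) (L : List (Finset α))
    (hL : L.Nodup) : Real.log (gain b m S L) =
      ∑ E ∈ L.toFinset, Real.log (1 + (b : ℝ) * ((E ∩ S).card : ℝ) / (m : ℝ)) := by
  rw [List.sum_toFinset _ hL]
  clear hL
  have hpos : ∀ E : Finset α, (0 : ℝ) < 1 + (b : ℝ) * ((E ∩ S).card : ℝ) / (m : ℝ) :=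
    fun E => by positivity
  have hg : ∀ L : List (Finset α), 0 < gain b m S L := by
    intro L
    induction L with
    | nil => simp [gain]
    | cons E L ih =>
      rw [FIN_gain_cons]
      exact mul_pos (hpos E) ih
  induction L with
  | nil => simp [gain]
  | cons E L ih =>
    rw [FIN_gain_cons, Real.log_mul (hpos E).ne' (hg L).ne', ih, List.map_cons, List.sum_cons]

/-- the lower bound for the logarithm of a gain -/
theorem FIN_log_ge {α : Type} [DecidableEq α] (b m : ℕ) (hm : 1 ≤ m) (S : Finset α)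
    (L : List (Finset α)) (hL : L.Nodup) (hc : ∀ E ∈ L, E.card ≤ m) :
    Real.log (1 + b) / m * ∑ E ∈ L.toFinset, ((E ∩ S).card : ℝ) ≤ Real.log (gain b m S L) := by
  rw [FIN_log b m S L hL, Finset.mul_sum]
  refine Finset.sum_le_sum fun E hE => FIN_conc b m _ hm ?_
  exact (Finset.card_le_card Finset.inter_subset_left).trans (hc E (List.mem_toFinset.1 hE))

theorem FIN_log_nonneg {α : Type} [DecidableEq α] (b m : ℕ) (S : Finset α)
    (L : List (Finset α)) (hL : L.Nodup) : 0 ≤ Real.log (gain b m S L) := by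
  rw [FIN_log b m S L hL]
  refine Finset.sum_nonneg fun E _ => Real.log_nonneg ?_
  have : (0 : ℝ) ≤ (b : ℝ) * ((E ∩ S).card : ℝ) / (m : ℝ) := by positivity
  linarith

theorem FIN_ed_card {N : ℕ} (K : Finset (Fin N)) :
    ((ed K).card : ℝ) = (K.card : ℝ) * ((K.card : ℝ) - 1) / 2 := by
  rw [ed, Finset.card_powersetCard, Nat.cast_choose_two]

theorem FIN_rest_card {N : ℕ} (K B : Finset (Fin N)) (hB : B ⊆ K) :
    ((rest K B).card : ℝ) = (K.card : ℝ) * ((K.card : ℝ) - 1) / 2 -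
      (B.card : ℝ) * ((B.card : ℝ) - 1) / 2 := by
  have h : ed B ⊆ ed K := Finset.powersetCard_mono hB
  have h1 := Finset.card_sdiff_add_card_eq_card h
  have h2 : ((rest K B).card : ℝ) + ((ed B).card : ℝ) = ((ed K).card : ℝ) := by
    rw [rest]
    exact_mod_cast h1
  rw [FIN_ed_card, FIN_ed_card] at h2
  linarith

theorem FIN_sub {N : ℕ} (K B : Finset (Fin N)) : ed (K \ B) ⊆ rest K B := by
  intro e he
  rw [ed, Finset.mem_powersetCard] at he
  rw [rest, Finset.mem_sdiff, ed, ed, Finset.mem_powersetCard, Finset.mem_powersetCard]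
  refine ⟨⟨he.1.trans Finset.sdiff_subset, he.2⟩, ?_⟩
  rintro ⟨h1, -⟩
  have hne : e.Nonempty := by
    rw [← Finset.card_pos, he.2]
    norm_num
  obtain ⟨v, hv⟩ := hne
  exact (Finset.mem_sdiff.1 (he.1 hv)).2 (h1 hv)

theorem FIN_rest_sub {N : ℕ} (K B : Finset (Fin N)) : rest K B ⊆ ed K := Finset.sdiff_subset

/-- the sum of `|E ∩ S|` over all turns is `|S|` -/
theorem FIN_cover (hHLN : HLN_stmt) {N m : ℕ} (H : List (ES N)) (hH : Hist N m H)
    (K : Finset (Fin N)) (hcov : ∀ e ∈ ed K, ∃ E ∈ H, e ∈ E) (S : ES N) (hS : S ⊆ ed K) :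
    ∑ E ∈ H.toFinset, ((E ∩ S).card : ℝ) = (S.card : ℝ) := by
  obtain ⟨-, hnd, -, h⟩ := hHLN N m H hH
  have h1 := h S fun e he => hcov e (hS he)
  rw [← List.sum_toFinset _ hnd] at h1
  exact_mod_cast h1

/-- the bound for a closed set -/
theorem FIN_closed {N : ℕ} (J : ℕ) (K B : Finset (Fin N)) (H : List (ES N))
    (hcl : Closed J K H B) (E : ES N) (hE : E ∈ H) :
    ((E ∩ ed (K \ B)).card : ℝ) ≤ (J : ℝ) ^ 2 / 2 := by
  have h1 : E ∩ ed (K \ B) ⊆ (verts (E ∩ ed K) \ B).powersetCard 2 := by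
    intro e he
    rw [Finset.mem_inter, ed, Finset.mem_powersetCard] at he
    rw [Finset.mem_powersetCard]
    refine ⟨?_, he.2.2⟩
    intro v hv
    have hvk := Finset.mem_sdiff.1 (he.2.1 hv)
    rw [Finset.mem_sdiff]
    refine ⟨?_, hvk.2⟩
    rw [verts, Finset.mem_biUnion]
    refine ⟨e, ?_, hv⟩
    rw [Finset.mem_inter, ed, Finset.mem_powersetCard]
    exact ⟨he.1, he.2.1.trans Finset.sdiff_subset, he.2.2⟩
  have h2 := Finset.card_le_card h1
  rw [Finset.card_powersetCard] at h2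
  have h3 := hcl E hE
  have h4 : ((E ∩ ed (K \ B)).card : ℝ) ≤ (((verts (E ∩ ed K) \ B).card.choose 2 : ℕ) : ℝ) := by
    exact_mod_cast h2
  rw [Nat.cast_choose_two] at h4
  have h5 : ((verts (E ∩ ed K) \ B).card : ℝ) ≤ J := by exact_mod_cast h3.le
  have h6 : (0 : ℝ) ≤ ((verts (E ∩ ed K) \ B).card : ℝ) := Nat.cast_nonneg _
  nlinarith

/-- the second alternative, for a given splitting -/
theorem FIN_core (hHLN : HLN_stmt) (N m b J : ℕ) (δ : ℝ) (H₂ H₁ : List (ES N))
    (K B : Finset (Fin N)) (hm : 1 ≤ m) (hb : 1 ≤ b) (hH : Hist N m (H₂ ++ H₁))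
    (hcov : ∀ e ∈ ed K, ∃ E ∈ H₂ ++ H₁, e ∈ E) (hδ : 0 < δ) (hbδ : (b : ℝ) * δ ≤ 1)
    (hB : B ⊆ K) (hcl : Closed J K H₁ B) (ee γ : ℝ) (hγ : γ = (K.card : ℝ) - B.card)
    (he : ∑ E ∈ H₂.toFinset, ((E ∩ ed K).card : ℝ) ≤ ee) :
    Real.log (1 + b) / m * (γ * ((K.card : ℝ) - γ)) +
        (b : ℝ) * (1 - (b : ℝ) * δ / 2) / m * (γ * (γ - 1) / 2 -
          ((K.card : ℝ) ^ 2 * (J : ℝ) ^ 2 / (4 * δ * m) + ee)) ≤
      Real.log (gain b m (rest K B) H₁) + Real.log (gain b m (ed K) H₂) := by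
  classical
  obtain ⟨-, hnd, -, -⟩ := hHLN N m _ hH
  have hm' : (0 : ℝ) < m := by exact_mod_cast hm
  have hb' : (1 : ℝ) ≤ b := by exact_mod_cast hb
  obtain ⟨hnd2, hnd1, hdis⟩ := List.nodup_append.1 hnd
  have hdisj : Disjoint H₂.toFinset H₁.toFinset := by
    rw [Finset.disjoint_left]
    intro E h2 h1
    exact hdis E (List.mem_toFinset.1 h2) E (List.mem_toFinset.1 h1) rfl
  have hsplit : ∀ f : ES N → ℝ, ∑ E ∈ (H₂ ++ H₁).toFinset, f E =
      ∑ E ∈ H₂.toFinset, f E + ∑ E ∈ H₁.toFinset, f E := by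
    intro f
    rw [List.toFinset_append, Finset.sum_union hdisj]
  have hcard : ∀ E ∈ H₂ ++ H₁, E.card ≤ m := fun E hE => (hH.mem E hE).2.2
  set r : ES N → ℝ := fun E => ((E ∩ rest K B).card : ℝ) with hr
  set g : ES N → ℝ := fun E => ((E ∩ ed (K \ B)).card : ℝ) with hg
  have hsr := FIN_cover hHLN _ hH K hcov (rest K B) (FIN_rest_sub K B)
  have hsg := FIN_cover hHLN _ hH K hcov (ed (K \ B)) ((FIN_sub K B).trans (FIN_rest_sub K B))
  rw [FIN_rest_card K B hB, hsplit] at hsr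
  have hKB : ((K \ B).card : ℝ) = γ := by
    have h1 := Finset.card_sdiff_add_card_eq_card hB
    have h2 : ((K \ B).card : ℝ) + (B.card : ℝ) = (K.card : ℝ) := by exact_mod_cast h1
    rw [hγ]; linarith
  rw [FIN_ed_card, hKB, hsplit] at hsg
  have hgr : ∀ E, g E ≤ r E := by
    intro E
    simp only [hr, hg]
    exact_mod_cast Finset.card_le_card (Finset.inter_subset_inter_left (FIN_sub K B))
  have hg0 : ∀ E, 0 ≤ g E := fun E => Nat.cast_nonneg _
  have hr0 : ∀ E, 0 ≤ r E := fun E => Nat.cast_nonneg _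
  have hrK : ∀ E, r E ≤ ((E ∩ ed K).card : ℝ) := by
    intro E
    simp only [hr]
    exact_mod_cast Finset.card_le_card (Finset.inter_subset_inter_left (FIN_rest_sub K B))
  have hlam : 0 ≤ Real.log (1 + (b : ℝ)) / m :=
    div_nonneg (Real.log_nonneg (by linarith)) hm'.le
  set c1 : ℝ := Real.log (1 + (b : ℝ)) / m with hc1
  set c2 : ℝ := (b : ℝ) * (1 - (b : ℝ) * δ / 2) / m with hc2
  have hc20 : 0 ≤ c2 := by
    rw [hc2]
    apply div_nonneg _ hm'.le
    apply mul_nonneg (by linarith)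
    linarith
  -- turns in H₁
  have h4 : ∀ E ∈ H₁.toFinset, c1 * (r E - g E) + c2 * (if r E < δ * m then g E else 0) ≤
      Real.log (1 + (b : ℝ) * ((E ∩ rest K B).card : ℝ) / (m : ℝ)) := by
    intro E hE
    have hE' : E ∈ H₂ ++ H₁ := List.mem_append_right _ (List.mem_toFinset.1 hE)
    have hle : (E ∩ rest K B).card ≤ m :=
      (Finset.card_le_card Finset.inter_subset_left).trans (hcard E hE')
    have hA : c1 * r E ≤ Real.log (1 + (b : ℝ) * ((E ∩ rest K B).card : ℝ) / (m : ℝ)) :=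
      FIN_conc b m _ hm hle
    split_ifs with hs
    · have hx : (b : ℝ) * r E / m ≤ (b : ℝ) * δ := by
        rw [div_le_iff₀ hm']
        have := mul_le_mul_of_nonneg_left hs.le (by linarith : (0 : ℝ) ≤ b)
        linarith
      have hBq : (b : ℝ) * r E / m * (1 - (b : ℝ) * δ / 2) ≤
          Real.log (1 + (b : ℝ) * ((E ∩ rest K B).card : ℝ) / (m : ℝ)) :=
        FIN_quad _ _ (by have := hr0 E; positivity) hx
      have hB2 : c2 * r E ≤ Real.log (1 + (b : ℝ) * ((E ∩ rest K B).card : ℝ) / (m : ℝ)) := by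
        refine le_trans (le_of_eq ?_) hBq
        rw [hc2]; ring
      rcases le_total c1 c2 with hcc | hcc
      · have h5 : c1 * (r E - g E) ≤ c2 * (r E - g E) :=
          mul_le_mul_of_nonneg_right hcc (sub_nonneg.2 (hgr E))
        have h6 : c2 * (r E - g E) + c2 * g E = c2 * r E := by ring
        linarith
      · have h5 : c2 * g E ≤ c1 * g E := mul_le_mul_of_nonneg_right hcc (hg0 E)
        have h6 : c1 * (r E - g E) + c1 * g E = c1 * r E := by ring
        linarith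
    · have h5 : 0 ≤ c1 * g E := mul_nonneg hlam (hg0 E)
      have h6 : c1 * (r E - g E) + c1 * g E = c1 * r E := by ring
      linarith
  -- turns in H₂
  have h5 : ∀ E ∈ H₂.toFinset, c1 * (r E - g E) ≤
      Real.log (1 + (b : ℝ) * ((E ∩ ed K).card : ℝ) / (m : ℝ)) := by
    intro E hE
    have hE' : E ∈ H₂ ++ H₁ := List.mem_append_left _ (List.mem_toFinset.1 hE)
    have hle : (E ∩ ed K).card ≤ m :=
      (Finset.card_le_card Finset.inter_subset_left).trans (hcard E hE')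
    refine le_trans ?_ (FIN_conc b m _ hm hle)
    apply mul_le_mul_of_nonneg_left _ hlam
    have h1 := hg0 E
    have h2 := hrK E
    linarith
  have hs1 := Finset.sum_le_sum h4
  have hs2 := Finset.sum_le_sum h5
  rw [← FIN_log b m (rest K B) H₁ hnd1, Finset.sum_add_distrib, ← Finset.mul_sum,
    ← Finset.mul_sum, Finset.sum_sub_distrib] at hs1
  rw [← FIN_log b m (ed K) H₂ hnd2, ← Finset.mul_sum, Finset.sum_sub_distrib] at hs2
  -- the heavy turns
  have h7 : ∀ E ∈ H₁.toFinset, g E ≤ (if r E < δ * m then g E else 0) +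
      r E / (δ * m) * ((J : ℝ) ^ 2 / 2) := by
    intro E hE
    have hdm : 0 < δ * m := mul_pos hδ hm'
    have hJ : (0 : ℝ) ≤ (J : ℝ) ^ 2 / 2 := by positivity
    split_ifs with hs
    · have : 0 ≤ r E / (δ * m) * ((J : ℝ) ^ 2 / 2) :=
        mul_nonneg (div_nonneg (hr0 E) hdm.le) hJ
      linarith
    · have h1 : 1 ≤ r E / (δ * m) := by
        rw [one_le_div hdm]
        exact not_lt.1 hs
      have h2 := FIN_closed J K B H₁ hcl E (List.mem_toFinset.1 hE)
      have h3 : 1 * ((J : ℝ) ^ 2 / 2) ≤ r E / (δ * m) * ((J : ℝ) ^ 2 / 2) :=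
        mul_le_mul_of_nonneg_right h1 hJ
      have h4 : g E ≤ (J : ℝ) ^ 2 / 2 := h2
      linarith
  have hs3 := Finset.sum_le_sum h7
  rw [Finset.sum_add_distrib, ← Finset.sum_mul, ← Finset.sum_div] at hs3
  -- the sum of r over H₁
  have hr2 : ∑ E ∈ H₁.toFinset, r E ≤ (K.card : ℝ) ^ 2 / 2 := by
    have h1 : 0 ≤ ∑ E ∈ H₂.toFinset, r E := Finset.sum_nonneg fun E _ => hr0 E
    have h2 : (B.card : ℝ) * ((B.card : ℝ) - 1) / 2 = ((ed B).card : ℝ) := (FIN_ed_card B).symm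
    have h3 : (0 : ℝ) ≤ ((ed B).card : ℝ) := Nat.cast_nonneg _
    have h4 : (0 : ℝ) ≤ (K.card : ℝ) := Nat.cast_nonneg _
    have h5 : (K.card : ℝ) * ((K.card : ℝ) - 1) / 2 ≤ (K.card : ℝ) ^ 2 / 2 := by nlinarith
    linarith
  have hr3 : (∑ E ∈ H₁.toFinset, r E) / (δ * m) * ((J : ℝ) ^ 2 / 2) ≤
      (K.card : ℝ) ^ 2 * (J : ℝ) ^ 2 / (4 * δ * m) := by
    have hdm : 0 < δ * m := mul_pos hδ hm'
    have h1 : (∑ E ∈ H₁.toFinset, r E) / (δ * m) ≤ ((K.card : ℝ) ^ 2 / 2) / (δ * m) :=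
      div_le_div_of_nonneg_right hr2 hdm.le
    have h2 := mul_le_mul_of_nonneg_right h1 (by positivity : (0 : ℝ) ≤ (J : ℝ) ^ 2 / 2)
    refine h2.trans (le_of_eq ?_)
    field_simp
    ring
  have hg2 : ∑ E ∈ H₂.toFinset, g E ≤ ee := by
    refine le_trans (Finset.sum_le_sum fun E _ => ?_) he
    exact (hgr E).trans (hrK E)
  have h8 : γ * (γ - 1) / 2 - ((K.card : ℝ) ^ 2 * (J : ℝ) ^ 2 / (4 * δ * m) + ee) ≤
      ∑ E ∈ H₁.toFinset, (if r E < δ * m then g E else 0) := by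
    linarith
  have h9 := mul_le_mul_of_nonneg_left h8 hc20
  have h10 : γ * ((K.card : ℝ) - γ) = (∑ E ∈ H₂.toFinset, r E + ∑ E ∈ H₁.toFinset, r E) -
      (∑ E ∈ H₂.toFinset, g E + ∑ E ∈ H₁.toFinset, g E) := by
    rw [hsr, hsg, hγ]
    ring
  have h11 : c1 * (γ * ((K.card : ℝ) - γ)) =
      c1 * (∑ E ∈ H₁.toFinset, r E - ∑ E ∈ H₁.toFinset, g E) +
      c1 * (∑ E ∈ H₂.toFinset, r E - ∑ E ∈ H₂.toFinset, g E) := by
    rw [h10]; ring
  rw [h11]
  linarith

/-- the first alternative, for a given splitting -/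
theorem FIN_one (hHLN : HLN_stmt) (N m b : ℕ) (H₂ H₁ : List (ES N))
    (K B : Finset (Fin N)) (hm : 1 ≤ m) (hH : Hist N m (H₂ ++ H₁))
    (hcov : ∀ e ∈ ed K, ∃ E ∈ H₂ ++ H₁, e ∈ E) :
    Real.log (1 + b) / m * ((rest K B).card : ℝ) ≤
      Real.log (gain b m (rest K B) H₁) + Real.log (gain b m (ed K) H₂) := by
  classical
  obtain ⟨-, hnd, -, -⟩ := hHLN N m _ hH
  have hm' : (0 : ℝ) < m := by exact_mod_cast hm
  obtain ⟨hnd2, hnd1, hdis⟩ := List.nodup_append.1 hnd
  have hdisj : Disjoint H₂.toFinset H₁.toFinset := by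
    rw [Finset.disjoint_left]
    intro E h2 h1
    exact hdis E (List.mem_toFinset.1 h2) E (List.mem_toFinset.1 h1) rfl
  have hsr := FIN_cover hHLN _ hH K hcov (rest K B) (FIN_rest_sub K B)
  rw [List.toFinset_append, Finset.sum_union hdisj] at hsr
  rw [← hsr, mul_add]
  have h1 := FIN_log_ge b m hm (rest K B) H₁ hnd1
    fun E hE => (hH.mem E (List.mem_append_right _ hE)).2.2
  have h2 := FIN_log_ge b m hm (ed K) H₂ hnd2
    fun E hE => (hH.mem E (List.mem_append_left _ hE)).2.2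
  have h3 : ∑ E ∈ H₂.toFinset, ((E ∩ rest K B).card : ℝ) ≤
      ∑ E ∈ H₂.toFinset, ((E ∩ ed K).card : ℝ) := by
    refine Finset.sum_le_sum fun E _ => ?_
    exact_mod_cast Finset.card_le_card (Finset.inter_subset_inter_left (FIN_rest_sub K B))
  have hlam : 0 ≤ Real.log (1 + (b : ℝ)) / m :=
    div_nonneg (Real.log_nonneg (by have : (0 : ℝ) ≤ b := Nat.cast_nonneg b; linarith)) hm'.le
  have h4 := mul_le_mul_of_nonneg_left h3 hlam
  linarith

/-- the splitting -/
theorem FIN_split {α : Type} (H : List α) (Big Small : List α → List α → Prop)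
    (h0 : Big H []) (hor : ∀ H₂ H₁, H = H₂ ++ H₁ → Big H₂ H₁ ∨ Small H₂ H₁) :
    Big [] H ∨ ∃ (H₂ : List α) (E : α) (H₁ : List α), H = H₂ ++ (E :: H₁) ∧
      Big (H₂ ++ [E]) H₁ ∧ Small H₂ (E :: H₁) := by
  have key : ∀ H₂ : List α, ∀ H₁, H = H₂ ++ H₁ → Big H₂ H₁ →
      Big [] H ∨ ∃ (H₂ : List α) (E : α) (H₁ : List α), H = H₂ ++ (E :: H₁) ∧
        Big (H₂ ++ [E]) H₁ ∧ Small H₂ (E :: H₁) := by
    intro H₂
    induction H₂ using List.reverseRecOn with
    | nil =>
      intro H₁ h hB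
      left
      rw [List.nil_append] at h
      rw [h]; exact hB
    | append_singleton H₂ E ih =>
      intro H₁ h hB
      have h' : H = H₂ ++ (E :: H₁) := by rw [h]; simp
      rcases hor H₂ (E :: H₁) h' with h1 | h1
      · exact ih _ h' h1
      · exact Or.inr ⟨H₂, E, H₁, h', hB, h1⟩
  exact key H [] (by simp) h0

theorem FIN (h1 : HLN_stmt) (_h2 : MUL_stmt) : FIN_stmt := by
  intro N m b q J ℓ Rr u w δ H K hm hb hJ hH hK hcov hu huw hwq hℓ hRr hδ hbδ hsp
  have hm' : (0 : ℝ) < m := by exact_mod_cast hm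
  have hb' : (1 : ℝ) ≤ b := by exact_mod_cast hb
  have hlogpos : 0 < Real.log (1 + (b : ℝ)) := Real.log_pos (by linarith)
  obtain ⟨-, hnd, -, -⟩ := h1 N m _ hH
  subst hK
  -- splitting with H₁ = []
  obtain ⟨B₀, hB₀, hcl₀, hB₀e, hlog₀⟩ := hsp H [] (by simp)
  have hB₀e' := hB₀e rfl
  subst hB₀e'
  refine ⟨?_, ?_⟩
  · have h3 := FIN_one h1 N m b H [] K ∅ hm (by simpa using hH) (by simpa using hcov)
    rw [FIN_rest_card K ∅ (Finset.empty_subset _)] at h3
    simp only [Finset.card_empty, Nat.cast_zero, zero_mul, zero_div, sub_zero] at h3 hlog₀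
    linarith
  · by_cases hin : ∃ H₂ H₁, H = H₂ ++ H₁ ∧ ∃ B ⊆ K, u ≤ (K.card : ℝ) - B.card ∧
        (K.card : ℝ) - B.card ≤ w ∧
        Real.log (gain b m (rest K B) H₁) + Real.log (gain b m (ed K) H₂) ≤
          ((K.card : ℝ) - B.card) * ℓ + Rr
    · left
      obtain ⟨H₂, H₁, hHH, B, hBK, hu1, hw1, hlog⟩ := hin
      refine ⟨(K.card : ℝ) - B.card, hu1, hw1, ?_⟩
      have h3 := FIN_one h1 N m b H₂ H₁ K B hm (by rw [← hHH]; exact hH)
        (by rw [← hHH]; exact hcov)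
      rw [FIN_rest_card K B hBK] at h3
      refine le_trans (le_of_eq ?_) (h3.trans hlog)
      ring
    · right
      have hor : ∀ H₂ H₁, H = H₂ ++ H₁ →
          (∃ B ⊆ K, Closed J K H₁ B ∧ Real.log (gain b m (rest K B) H₁) +
            Real.log (gain b m (ed K) H₂) ≤ ((K.card : ℝ) - B.card) * ℓ + Rr ∧
            w < (K.card : ℝ) - B.card) ∨
          (∃ B ⊆ K, Real.log (gain b m (rest K B) H₁) +
            Real.log (gain b m (ed K) H₂) ≤ ((K.card : ℝ) - B.card) * ℓ + Rr ∧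
            (K.card : ℝ) - B.card < u) := by
        intro H₂ H₁ hHH
        obtain ⟨B, hBK, hcl, -, hlog⟩ := hsp H₂ H₁ hHH
        rcases lt_or_ge ((K.card : ℝ) - B.card) u with hlt | hge
        · exact Or.inr ⟨B, hBK, hlog, hlt⟩
        · left
          refine ⟨B, hBK, hcl, hlog, ?_⟩
          by_contra hcon
          exact hin ⟨H₂, H₁, hHH, B, hBK, hge, not_lt.1 hcon, hlog⟩
      have h0 : ∃ B ⊆ K, Closed J K [] B ∧ Real.log (gain b m (rest K B) []) +
            Real.log (gain b m (ed K) H) ≤ ((K.card : ℝ) - B.card) * ℓ + Rr ∧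
            w < (K.card : ℝ) - B.card := by
        refine ⟨∅, hB₀, hcl₀, hlog₀, ?_⟩
        simpa using hwq
      have hee0 : 0 ≤ (u * ℓ + Rr) * m / Real.log (1 + b) := by positivity
      -- the second alternative, from a splitting with small H₂
      have hfin : ∀ H₂ H₁, H = H₂ ++ H₁ →
          ∑ E ∈ H₂.toFinset, ((E ∩ ed K).card : ℝ) ≤
            m + (u * ℓ + Rr) * m / Real.log (1 + b) →
          (∃ B ⊆ K, Closed J K H₁ B ∧ Real.log (gain b m (rest K B) H₁) +
            Real.log (gain b m (ed K) H₂) ≤ ((K.card : ℝ) - B.card) * ℓ + Rr ∧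
            w < (K.card : ℝ) - B.card) →
          ∃ γ : ℝ, w < γ ∧ γ ≤ (K.card : ℝ) ∧
            Real.log (1 + b) / m * (γ * ((K.card : ℝ) - γ)) +
              (b : ℝ) * (1 - (b : ℝ) * δ / 2) / m * (γ * (γ - 1) / 2 -
                ((K.card : ℝ) ^ 2 * (J : ℝ) ^ 2 / (4 * δ * m) + m +
                  (u * ℓ + Rr) * m / Real.log (1 + b))) ≤ γ * ℓ + Rr := by
        intro H₂ H₁ hHH he
        rintro ⟨B, hBK, hcl, hlog, hw⟩
        refine ⟨(K.card : ℝ) - B.card, hw, ?_, ?_⟩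
        · have : (0 : ℝ) ≤ B.card := Nat.cast_nonneg _
          linarith
        · have h3 := FIN_core h1 N m b J δ H₂ H₁ K B hm hb (by rw [← hHH]; exact hH)
            (by rw [← hHH]; exact hcov) hδ hbδ hBK hcl _ _ rfl he
          refine le_trans (le_of_eq ?_) (h3.trans hlog)
          ring
      rcases FIN_split H _ _ h0 hor with hbig | ⟨H₂, E, H₁, hHH, hbig, B, hBK, hlog, hlt⟩
      · refine hfin [] H (by simp) ?_ hbig
        simp only [List.toFinset_nil, Finset.sum_empty]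
        linarith
      · have hHH' : H = (H₂ ++ [E]) ++ H₁ := by rw [hHH]; simp
        refine hfin (H₂ ++ [E]) H₁ hHH' ?_ hbig
        have hnd' := hnd
        rw [hHH] at hnd'
        obtain ⟨hnd2, hnd1, hdis⟩ := List.nodup_append.1 hnd'
        have hdisj : Disjoint H₂.toFinset [E].toFinset := by
          rw [Finset.disjoint_left]
          intro F hF2 hF1
          rw [List.mem_toFinset, List.mem_singleton] at hF1
          exact hdis F (List.mem_toFinset.1 hF2) E (by simp) hF1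
        rw [List.toFinset_append, Finset.sum_union hdisj]
        have hmemE : E ∈ H := by rw [hHH]; simp
        have hE1 : ∑ F ∈ [E].toFinset, ((F ∩ ed K).card : ℝ) ≤ m := by
          simp only [List.toFinset_cons, List.toFinset_nil, insert_empty_eq,
            Finset.sum_singleton]
          exact_mod_cast (Finset.card_le_card Finset.inter_subset_left).trans
            (hH.mem E hmemE).2.2
        have hE2 : ∑ F ∈ H₂.toFinset, ((F ∩ ed K).card : ℝ) ≤
            (u * ℓ + Rr) * m / Real.log (1 + b) := by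
          rw [le_div_iff₀ hlogpos]
          have h3 := FIN_log_ge b m hm (ed K) H₂ hnd2 fun F hF =>
            (hH.mem F (by rw [hHH]; exact List.mem_append_left _ hF)).2.2
          have h4 := FIN_log_nonneg b m (rest K B) (E :: H₁) hnd1
          have h5 : ((K.card : ℝ) - B.card) * ℓ ≤ u * ℓ :=
            mul_le_mul_of_nonneg_right hlt.le hℓ
          have h6 : Real.log (1 + b) / m * ∑ F ∈ H₂.toFinset, ((F ∩ ed K).card : ℝ) ≤
              u * ℓ + Rr := by linarith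
          have h7 := mul_le_mul_of_nonneg_right h6 hm'.le
          refine le_trans (le_of_eq ?_) h7
          field_simp
        linarith

end Pool.Agent.helper24.CG
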